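import Pool.Agent.P.MP_465281_an.EqFinS

namespace Pool.Agent.Results.MP_465281_an.EquiSphere

/-- the image of a subset of the unit sphere under a linear isometry of the ambient space -/
def act {E : Type} [NormedAddCommGroup E] [InnerProductSpace ℝ E] (g : E ≃ₗᵢ[ℝ] E)
    (A : Set (Metric.sphere (0 : E) 1)) : Set (Metric.sphere (0 : E) 1) :=
  Subtype.val ⁻¹' (g '' (Subtype.val '' A))

/-- `A` is cut into finitely many measurable pieces which linear isometries move to a partition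
of `B` -/
def BorelEqui {E : Type} [NormedAddCommGroup E] [InnerProductSpace ℝ E] [MeasurableSpace E]
    (A B : Set (Metric.sphere (0 : E) 1)) : Prop :=
  ∃ (k : ℕ) (P : Fin k → Set (Metric.sphere (0 : E) 1)) (g : Fin k → E ≃ₗᵢ[ℝ] E),
    (∀ i, MeasurableSet (P i)) ∧ (∀ i j, i ≠ j → Disjoint (P i) (P j)) ∧ ⋃ i, P i = A ∧
    (∀ i j, i ≠ j → Disjoint (act (g i) (P i)) (act (g j) (P j))) ∧ ⋃ i, act (g i) (P i) = B

/-- finitely many congruent copies of `A` cover some spherical cap -/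
def CoversCap {E : Type} [NormedAddCommGroup E] [InnerProductSpace ℝ E]
    (A : Set (Metric.sphere (0 : E) 1)) : Prop :=
  ∃ (x : Metric.sphere (0 : E) 1) (r : ℝ) (k : ℕ) (g : Fin k → E ≃ₗᵢ[ℝ] E),
    0 < r ∧ Metric.ball x r ⊆ ⋃ i, act (g i) A

/-- the surface measure of a subset of the unit sphere -/
noncomputable def area {E : Type} [NormedAddCommGroup E] [InnerProductSpace ℝ E]
    [MeasureTheory.MeasureSpace E] (A : Set (Metric.sphere (0 : E) 1)) : ENNReal :=
  (MeasureTheory.volume : MeasureTheory.Measure E).toSphere A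

theorem result (n : ℕ) (hn : 2 ≤ n)
    (A B : Set (Metric.sphere (0 : EuclideanSpace ℝ (Fin (n + 1))) 1))
    (hA : MeasurableSet A) (hB : MeasurableSet B) (hc : CoversCap A) :
    BorelEqui A B ↔ (area A = area B ∧ CoversCap B) := by
  obtain ⟨m, rfl⟩ : ∃ m, n = m + 2 := ⟨n - 2, by omega⟩
  have hact : ∀ (g : Pool.Agent.P.MP_465281_an.Es m ≃ₗᵢ[ℝ] Pool.Agent.P.MP_465281_an.Es m) S,
      act g S = Pool.Agent.P.MP_465281_an.sph g '' S := Pool.Agent.P.MP_465281_an.sph_image
  rw [area, area, ← Pool.Agent.P.MP_465281_an.lam_eq_iff]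
  obtain ⟨x, r, k, f, hr, hf⟩ := hc
  simp only [BorelEqui, CoversCap, hact] at hf ⊢
  constructor
  · rintro ⟨l, P, g, h1, h2, h3, h4, h5⟩
    constructor
    · rw [← h3, ← h5, MeasureTheory.measure_iUnion h2 h1, MeasureTheory.measure_iUnion h4
        fun i => Pool.Agent.P.MP_465281_an.ED.img_meas _ (h1 i)]
      simp only [Pool.Agent.P.MP_465281_an.lam_image]
    · refine ⟨x, r, k * l, fun s => f (finProdFinEquiv.symm s).1 *
        (g (finProdFinEquiv.symm s).2)⁻¹, hr, fun z hz => ?_⟩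
      obtain ⟨i, a, ha, rfl⟩ := Set.mem_iUnion.1 (hf hz)
      rw [← h3] at ha
      obtain ⟨j, hj⟩ := Set.mem_iUnion.1 ha
      refine Set.mem_iUnion.2 ⟨finProdFinEquiv (i, j), Pool.Agent.P.MP_465281_an.sph (g j) a,
        ?_, ?_⟩
      · rw [← h5]
        exact Set.mem_iUnion.2 ⟨j, a, hj, rfl⟩
      · simp only [Equiv.symm_apply_apply]
        rw [← Pool.Agent.P.MP_465281_an.sph_mul, inv_mul_cancel_right]
  · rintro ⟨hAB, y, s, l, f', hs, hf'⟩
    obtain ⟨k, e, P, h⟩ := Pool.Agent.P.MP_465281_an.sphere_equi hA hB hr hs f f' hf hf' hAB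
    exact ⟨k, P, e, h⟩

end Pool.Agent.Results.MP_465281_an.EquiSphere
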