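import Pool.Agent.P.MP_465281_an.Euclid

namespace Pool.Agent.Results.MP_465281_an.Euclidean

theorem result (n : ℕ) (hn : 3 ≤ n) (μ : Set (EuclideanSpace ℝ (Fin n)) → ENNReal)
    (h0 : μ ∅ = 0)
    (hadd : ∀ A B : Set (EuclideanSpace ℝ (Fin n)), MeasurableSet A → MeasurableSet B →
      Bornology.IsBounded A → Bornology.IsBounded B → Disjoint A B → μ (A ∪ B) = μ A + μ B)
    (hinv : ∀ (g : EuclideanSpace ℝ (Fin n) ≃ᵢ EuclideanSpace ℝ (Fin n))
      (A : Set (EuclideanSpace ℝ (Fin n))), MeasurableSet A → Bornology.IsBounded A →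
      μ (g '' A) = μ A)
    (h1 : μ {x | ∀ i, x i ∈ Set.Icc (0 : ℝ) 1} = 1) :
    ∀ A : Set (EuclideanSpace ℝ (Fin n)), MeasurableSet A → Bornology.IsBounded A →
      μ A = MeasureTheory.volume A := fun A hA hA' =>
  Pool.Agent.P.MP_465281_an.euclid_main hn
    ⟨h0, fun A B hA hB hd => hadd A B hA.1 hB.1 hA.2 hB.2 hd⟩
    (fun g A hA => hinv g A hA.1 hA.2) h1 A ⟨hA, hA'⟩

end Pool.Agent.Results.MP_465281_an.Euclidean
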