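import Pool.Agent.P.MP_465281_an.Sph2

namespace Pool.Agent.Results.MP_465281_an.Sphere

/-- `μ` is a finitely additive measure on the measurable subsets of the unit sphere of `E`,
invariant under all linear isometries of `E`, of total mass one. -/
def IsInvMean {E : Type} [NormedAddCommGroup E] [InnerProductSpace ℝ E] [MeasurableSpace E]
    (μ : Set (Metric.sphere (0 : E) 1) → ENNReal) : Prop :=
  μ ∅ = 0 ∧
  (∀ A B : Set (Metric.sphere (0 : E) 1),
    MeasurableSet A → MeasurableSet B → Disjoint A B → μ (A ∪ B) = μ A + μ B) ∧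
  (∀ (g : E ≃ₗᵢ[ℝ] E) (A : Set (Metric.sphere (0 : E) 1)), MeasurableSet A →
    μ (Subtype.val ⁻¹' (g '' (Subtype.val '' A))) = μ A) ∧
  μ Set.univ = 1

/-- the surface measure of a subset of the unit sphere of `E`, scaled to total mass one -/
noncomputable def surf {E : Type} [NormedAddCommGroup E] [InnerProductSpace ℝ E]
    [MeasureTheory.MeasureSpace E] (A : Set (Metric.sphere (0 : E) 1)) : ENNReal :=
  (MeasureTheory.volume : MeasureTheory.Measure E).toSphere A /
    (MeasureTheory.volume : MeasureTheory.Measure E).toSphere Set.univ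

theorem result (n : ℕ) (hn : 2 ≤ n)
    (μ : Set (Metric.sphere (0 : EuclideanSpace ℝ (Fin (n + 1))) 1) → ENNReal)
    (h : IsInvMean μ) : ∀ A, MeasurableSet A → μ A = surf A := by
  obtain ⟨h0, hadd, hinv, h1⟩ := h
  obtain ⟨m, rfl⟩ : ∃ m, n = m + 2 := ⟨n - 2, by omega⟩
  intro A hA
  rw [surf, ENNReal.div_eq_inv_mul]
  refine Pool.Agent.P.MP_465281_an.sphere_main (m := m) h0 hadd (fun g A hA => ?_) h1 A hA
  rw [← hinv g A hA]
  congr 1
  ext y
  constructor
  · rintro ⟨x, hx, rfl⟩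
    exact ⟨_, ⟨x, hx, rfl⟩, rfl⟩
  · rintro ⟨_, ⟨x, hx, rfl⟩, h⟩
    exact ⟨x, hx, Subtype.ext h⟩

end Pool.Agent.Results.MP_465281_an.Sphere
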